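import Pool.Agent.P8H51.EB.Stm
import Pool.Agent.P8H71.EA.Unit

/-!
# Project EB: package CUT2 (edited from `Pool.Agent.P8H71.EA.cut`)
-/

set_option autoImplicit false

namespace Pool.Agent.P8H46.EB

open NumberField Finset Pool.Agent.H458.Sp Pool.Agent.P8H51.EA Pool.Agent.P8H51.EB Pool.Agent.P8H71.EA

theorem cut2 : S_CUT2 := by
  intro K _ _ ι _ θ t T L ht hθ' low high g e hdis hS E hlow hhigh hsum
  obtain ⟨hθ0, hθ⟩ := hθ'
  by_contra hne
  have ht0 : 0 < t := by linarith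
  have hcard : Fintype.card (K →+* ℂ) = Module.finrank ℚ K := NumberField.Embeddings.card K ℂ
  have hn1 : 0 < Module.finrank ℚ K := Module.finrank_pos
  obtain ⟨y, hy⟩ : ∃ y : 𝓞 K, y = ∑ i ∈ high, θ ^ (e i - (E + L)) * g i := ⟨_, rfl⟩
  obtain ⟨S, hSd⟩ : ∃ S : ℝ, S = ∑ i ∈ low ∪ high, hs (g i) := ⟨_, rfl⟩
  rw [← hSd] at hS
  have hS0 : 0 ≤ S := by rw [hSd]; exact Finset.sum_nonneg fun i _ => hs_nonneg _
  have h1 : ∑ i ∈ high, θ ^ (e i) * g i = θ ^ (E + L) * y := by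
    rw [hy, Finset.mul_sum]
    refine Finset.sum_congr rfl fun i hi => ?_
    rw [← mul_assoc, ← pow_add, Nat.add_sub_cancel' (hhigh i hi)]
  have h2 : ∑ i ∈ low, θ ^ (e i) * g i = θ ^ (E + L) * (-y) := by
    rw [h1] at hsum
    linear_combination hsum
  have hy0 : y ≠ 0 := by
    intro h0
    rw [h2, h0, neg_zero, mul_zero] at hne
    exact hne rfl
  -- the bound of the low part and of `y`
  have hlowb : ∀ φ : K →+* ℂ, t ≤ ‖em φ θ‖ → ‖em φ y‖ * t ^ L ≤ S := by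
    intro φ h
    have hx1 : 1 ≤ ‖em φ θ‖ := ht.le.trans h
    have hx0 : 0 < ‖em φ θ‖ := by linarith
    have h3 : ‖em φ (∑ i ∈ low, θ ^ (e i) * g i)‖ ≤ ‖em φ θ‖ ^ E * S := by
      rw [map_sum]
      calc ‖∑ i ∈ low, em φ (θ ^ (e i) * g i)‖ ≤ ∑ i ∈ low, ‖em φ (θ ^ (e i) * g i)‖ :=
            norm_sum_le _ _
        _ ≤ ∑ i ∈ low, ‖em φ θ‖ ^ E * hs (g i) := by
            refine Finset.sum_le_sum fun i hi => ?_
            rw [map_mul, map_pow, norm_mul, norm_pow]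
            exact mul_le_mul (pow_le_pow_right₀ hx1 (hlow i hi)) (norm_em_le φ _) (norm_nonneg _)
              (by positivity)
        _ = ‖em φ θ‖ ^ E * ∑ i ∈ low, hs (g i) := by rw [Finset.mul_sum]
        _ ≤ ‖em φ θ‖ ^ E * S := by
            refine mul_le_mul_of_nonneg_left ?_ (by positivity)
            rw [hSd]
            exact Finset.sum_le_sum_of_subset_of_nonneg Finset.subset_union_left
              (fun _ _ _ => hs_nonneg _)
    rw [h2, map_mul, map_pow, norm_mul, norm_pow, map_neg, norm_neg, pow_add, mul_assoc] at h3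
    have h4 := le_of_mul_le_mul_left h3 (show (0 : ℝ) < ‖em φ θ‖ ^ E by positivity)
    have h5 : t ^ L ≤ ‖em φ θ‖ ^ L := pow_le_pow_left₀ ht0.le h L
    calc ‖em φ y‖ * t ^ L ≤ ‖em φ y‖ * ‖em φ θ‖ ^ L :=
          mul_le_mul_of_nonneg_left h5 (norm_nonneg _)
      _ = ‖em φ θ‖ ^ L * ‖em φ y‖ := mul_comm _ _
      _ ≤ S := h4
  have hhighb : ∀ φ : K →+* ℂ, ‖em φ θ‖ ≤ t⁻¹ → ‖em φ y‖ ≤ S := by
    intro φ h
    rw [hy, map_sum]
    calc ‖∑ i ∈ high, em φ (θ ^ (e i - (E + L)) * g i)‖ ≤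
          ∑ i ∈ high, ‖em φ (θ ^ (e i - (E + L)) * g i)‖ := norm_sum_le _ _
      _ ≤ ∑ i ∈ high, hs (g i) := by
          refine Finset.sum_le_sum fun i _ => ?_
          rw [map_mul, map_pow, norm_mul, norm_pow]
          have h5 : ‖em φ θ‖ ^ (e i - (E + L)) ≤ 1 :=
            pow_le_one₀ (norm_nonneg _) (h.trans (inv_le_one_of_one_le₀ ht.le))
          calc ‖em φ θ‖ ^ (e i - (E + L)) * ‖em φ (g i)‖ ≤ 1 * hs (g i) :=
                mul_le_mul h5 (norm_em_le φ _) (norm_nonneg _) zero_le_one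
            _ = hs (g i) := one_mul _
      _ ≤ S := by
          rw [hSd]
          exact Finset.sum_le_sum_of_subset_of_nonneg Finset.subset_union_right
            (fun _ _ _ => hs_nonneg _)
  have hall : ∀ φ : K →+* ℂ, ‖em φ y‖ ≤ S := by
    intro φ
    rcases hθ φ with h | h
    · refine le_trans ?_ (hlowb φ h.1)
      exact le_mul_of_one_le_right (norm_nonneg _) (one_le_pow₀ ht.le)
    · exact hhighb φ h
  -- an embedding of the first kind
  obtain ⟨φ₀, hφ₀⟩ : ∃ φ₀ : K →+* ℂ, t ≤ ‖em φ₀ θ‖ := by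
    by_contra hno
    push Not at hno
    have h5 := one_le_prod hθ0
    have h6 : ∏ φ : K →+* ℂ, ‖em φ θ‖ ≤ (t⁻¹) ^ (Module.finrank ℚ K) := by
      rw [← hcard, ← Finset.card_univ, ← Finset.prod_const]
      exact Finset.prod_le_prod (fun _ _ => norm_nonneg _)
        fun φ _ => (hθ φ).resolve_left (fun h => absurd h.1 (not_le.2 (hno φ)))
    have h7 : (t⁻¹) ^ (Module.finrank ℚ K) < 1 :=
      pow_lt_one₀ (inv_nonneg.2 ht0.le) (inv_lt_one_of_one_lt₀ ht) hn1.ne'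
    linarith
  have h8 := conj_lower hy0 S hall φ₀
  have h9 : t ^ L ≤ S ^ (Module.finrank ℚ K) := by
    calc t ^ L = 1 * t ^ L := (one_mul _).symm
      _ ≤ ‖em φ₀ y‖ * S ^ (Module.finrank ℚ K - 1) * t ^ L :=
          mul_le_mul_of_nonneg_right h8 (by positivity)
      _ = S ^ (Module.finrank ℚ K - 1) * (‖em φ₀ y‖ * t ^ L) := by ring
      _ ≤ S ^ (Module.finrank ℚ K - 1) * S :=
          mul_le_mul_of_nonneg_left (hlowb φ₀ hφ₀) (by positivity)
      _ = S ^ (Module.finrank ℚ K) := (pow_split (K := K) S).symm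
  linarith

end Pool.Agent.P8H46.EB
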